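import Pool.Agent.Y708.LN.Virt

/-!
# Gersten's group and all its relatives are linear

Let `φ` be an automorphism of a free group `F` of finite rank. If, for some `k ≥ 1`, the power
`φ ^ k` is up to an inner automorphism of the form `x₀ ↦ x₀`, `xᵢ ↦ x₀ ^ (p i) * xᵢ * x₀ ^ (q i)`
for a free basis `x₀, ..., xₙ` of `F`, then the group `F ⋊ ℤ` defined by `φ` is isomorphic to a
group of real matrices.
-/

set_option autoImplicit false

namespace Pool.Agent.Results.MP_1f284c_al.TwistFamilyLinear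


theorem result (n : ℕ) (φ : Multiplicative ℤ →* MulAut (FreeGroup (Fin (n + 1))))
    (k : ℕ) (hk : 0 < k) (x : Fin (n + 1) → FreeGroup (Fin (n + 1)))
    (hx : Function.Bijective (FreeGroup.lift x)) (g : FreeGroup (Fin (n + 1)))
    (p q : Fin n → ℤ)
    (h0 : φ (Multiplicative.ofAdd (k : ℤ)) (x 0) = g * x 0 * g⁻¹)
    (h : ∀ i : Fin n, φ (Multiplicative.ofAdd (k : ℤ)) (x i.succ) =
      g * (x 0 ^ p i * x i.succ * x 0 ^ q i) * g⁻¹) :
    ∃ (d : ℕ) (f : SemidirectProduct (FreeGroup (Fin (n + 1))) (Multiplicative ℤ) φ →*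
      Matrix.GeneralLinearGroup (Fin d) ℝ), Function.Injective f := by
  let θ : MulAut (FreeGroup (Fin (n + 1))) := MulEquiv.ofBijective (FreeGroup.lift x) hx
  have hθ : ∀ j, θ (FreeGroup.of j) = x j := fun j => FreeGroup.lift_apply_of
  let A : MulAut (FreeGroup (Fin (n + 1))) :=
    θ⁻¹ * (MulAut.conj g)⁻¹ * φ (Multiplicative.ofAdd (k : ℤ)) * θ
  have hA : ∀ w, φ (Multiplicative.ofAdd (k : ℤ)) (θ w) = g * θ (A w) * g⁻¹ := by
    intro w
    have h1 : θ (A w) = (MulAut.conj g)⁻¹ (φ (Multiplicative.ofAdd (k : ℤ)) (θ w)) := by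
      change θ (θ⁻¹ _) = _
      rw [MulAut.apply_inv_self]
      rfl
    have h2 : (MulAut.conj g)⁻¹ = MulAut.conj g⁻¹ := (map_inv MulAut.conj g).symm
    rw [h1, h2, MulAut.conj_apply]
    group
  have hA0 : A (FreeGroup.of 0) = FreeGroup.of 0 := by
    apply θ.injective
    have h1 := hA (FreeGroup.of 0)
    rw [hθ, h0] at h1
    rw [hθ]
    exact (mul_left_cancel (mul_right_cancel h1)).symm
  have hAs : ∀ i : Fin n, A (FreeGroup.of i.succ) =
      FreeGroup.of 0 ^ p i * FreeGroup.of i.succ * FreeGroup.of 0 ^ q i := by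
    intro i
    apply θ.injective
    have h1 := hA (FreeGroup.of i.succ)
    rw [hθ, h i] at h1
    rw [map_mul, map_mul, map_zpow, map_zpow, hθ, hθ]
    exact (mul_left_cancel (mul_right_cancel h1)).symm
  let ψ : Multiplicative ℤ →* MulAut (FreeGroup (Fin (n + 1))) := zpowersHom _ A
  have hψ : ψ (Multiplicative.ofAdd 1) = A := by
    change A ^ (1 : ℤ) = A
    rw [zpow_one]
  refine Pool.Agent.Y708.LN.linear_of_power φ ψ k hk θ g ?_ ?_
  · intro w
    rw [hψ]
    exact hA w
  · exact Pool.Agent.Y708.LN.linear n p q ψ (by rw [hψ]; exact hA0)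
      (fun i => by rw [hψ]; exact hAs i)

end Pool.Agent.Results.MP_1f284c_al.TwistFamilyLinear
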